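import Pool.Agent.H64.AK.Defs

set_option autoImplicit false

namespace Pool.Agent.H19.AK

open Pool.Agent.H64.AK Pool.Agent.H20.SL

theorem dns (hCCC : T_CCC) : T_DNS := by
  classical
  intro W _ hW
  by_contra hcon
  push Not at hcon
  let Q : Set (Cnd W) := {q | ∃ S : Set W, S.Countable ∧ ∀ r ≤ q, ∀ w ∈ r.a, w ∈ S}
  let Fam : Set (Set (Cnd W)) :=
    {M | M ⊆ Q ∧ ∀ a ∈ M, ∀ b ∈ M, a ≠ b → ¬ ∃ c, c ≤ a ∧ c ≤ b}
  have hQ : ∀ p : Cnd W, ∃ q ≤ p, q ∈ Q := by
    intro p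
    obtain ⟨q, hq, S, hS, h⟩ := hcon p
    exact ⟨q, hq, S, hS, h⟩
  obtain ⟨M, hM⟩ := zorn_subset Fam (by
    intro c hc hchain
    refine ⟨⋃₀ c, ⟨?_, ?_⟩, fun s hs => Set.subset_sUnion_of_mem hs⟩
    · intro x hx
      obtain ⟨s, hs, hxs⟩ := hx
      exact (hc hs).1 hxs
    · rintro a ⟨s, hs, has⟩ b ⟨t, ht, hbt⟩ hab
      rcases hchain.total hs ht with hst | hst
      · exact (hc ht).2 a (hst has) b hbt hab
      · exact (hc hs).2 a has b (hst hbt) hab)
  have hMF : M ∈ Fam := hM.prop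
  have hMc : M.Countable := hCCC W hW M hMF.2
  have hch : ∀ q : M, ∃ S : Set W, S.Countable ∧ ∀ r ≤ q.1, ∀ w ∈ r.a, w ∈ S :=
    fun q => hMF.1 q.2
  choose S hS1 hS2 using hch
  have : Countable M := hMc.to_subtype
  have hU : (⋃ q : M, S q).Countable := Set.countable_iUnion hS1
  have hw : ∃ w : W, w ∉ ⋃ q : M, S q := by
    by_contra hall
    push Not at hall
    apply hW.unc
    have : (Set.univ : Set W).Countable := hU.mono (fun w _ => hall w)
    exact Set.countable_univ_iff.1 this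
  obtain ⟨w, hw⟩ := hw
  obtain ⟨q', hq', hq'Q⟩ := hQ ⟨{w}, ∅⟩
  have hw' : w ∈ q'.a := ((Cnd.le_def _ _).1 hq').1 (Finset.mem_singleton_self w)
  have key : ∃ q : M, ∃ r : Cnd W, r ≤ q' ∧ r ≤ q.1 := by
    by_contra hno
    push Not at hno
    have hins : insert q' M ∈ Fam := by
      refine ⟨?_, ?_⟩
      · intro x hx
        rcases hx with rfl | hx
        · exact hq'Q
        · exact hMF.1 hx
      · rintro a ha b hb hab ⟨c, hca, hcb⟩
        rcases ha with rfl | ha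
        · rcases hb with rfl | hb
          · exact hab rfl
          · exact hno ⟨b, hb⟩ c hca hcb
        · rcases hb with rfl | hb
          · exact hno ⟨a, ha⟩ c hcb hca
          · exact hMF.2 a ha b hb hab ⟨c, hca, hcb⟩
    have hle : insert q' M ≤ M := hM.le_of_ge hins (Set.subset_insert q' M)
    have hq'M : q' ∈ M := hle (Set.mem_insert q' M)
    exact hno ⟨q', hq'M⟩ q' le_rfl le_rfl
  obtain ⟨q, r, hr1, hr2⟩ := key
  apply hw
  rw [Set.mem_iUnion]
  exact ⟨q, hS2 q r hr2 w (((Cnd.le_def _ _).1 hr1).1 hw')⟩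

end Pool.Agent.H19.AK
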