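import Pool.Agent.H64.AK.Defs

set_option autoImplicit false

namespace Pool.Agent.H19.AK

open Pool.Agent.H64.AK Pool.Agent.H20.SL

variable {T : Type} [PartialOrder T]

theorem tre_unique (h : IsTree T) {c : Option T} {u u' t : T} (hu : Suc c u) (hu' : Suc c u')
    (hut : u ≤ t) (hut' : u' ≤ t) : u = u' := by
  have main : ∀ a b : T, Suc c a → Suc c b → a ≤ b → a = b := by
    intro a b ha hb hab
    cases c with
    | none => exact le_antisymm hab ((show IsMin b from hb) hab)
    | some c =>
      rcases hab.eq_or_lt with h1 | h1
      · exact h1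
      · exact absurd h1 ((show c ⋖ b from hb).2 (show c ⋖ a from ha).1)
  rcases h.comp u u' t hut hut' with h1 | h1
  · exact main u u' hu hu' h1
  · exact (main u' u hu' hu h1).symm

/-- the function of a node or of the root -/
noncomputable def tre_val : Option T → XT T → ℝ
  | none => 0
  | some s => chi s

theorem tre_le (h : IsTree T) {c : Option T} {u s y : T} (hu : Suc c u) (hus : u ≤ s)
    (hne : tre_val (some s) (inc y : XT T) ≠ tre_val c (inc y : XT T)) : u ≤ y := by
  cases c with
  | none =>
    have h1 : y ≤ s := by
      by_contra hys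
      apply hne
      show chi s (inc y) = 0
      rw [chi_inc]
      rcases pf_apply s y with ⟨-, h2⟩ | ⟨h1, -⟩
      · exact absurd h2 hys
      · exact h1
    rcases h.comp u y s hus h1 with h2 | h2
    · exact h2
    · exact (show IsMin u from hu) h2
  | some c =>
    have hc : c ⋖ u := hu
    have h0 : ¬ (y ≤ s ↔ y ≤ c) := by
      intro hiff
      apply hne
      show chi s (inc y) = chi c (inc y)
      rw [chi_inc, chi_inc]
      exact pf_congr hiff
    have h1 : y ≤ c → y ≤ s := fun hyc => hyc.trans (hc.1.le.trans hus)
    have h2 : y ≤ s ∧ ¬ y ≤ c := by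
      by_contra hcon
      apply h0
      constructor
      · intro hys
        by_contra hyc
        exact hcon ⟨hys, hyc⟩
      · exact h1
    rcases h.comp u y s hus h2.1 with h3 | h3
    · exact h3
    · rcases h3.eq_or_lt with h4 | h4
      · exact h4.ge
      · exact absurd (le_of_covBy h hc h4) h2.2

theorem tre : T_TRE := by
  classical
  intro T _ h hH hI hW I e he hunc
  have hex : ∀ i, ∃ o : Option T, e i = tre_val o := by
    intro i
    rcases he i with h1 | ⟨s, h1⟩
    · exact ⟨none, h1⟩
    · exact ⟨some s, h1.symm⟩
  choose t ht using hex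
  have hmem : ∀ o : Option T, (tre_val o : XT T → ℝ) ∈
      (insert (0 : XT T → ℝ) (Set.range fun t : T => (chi t : XT T → ℝ))) := by
    intro o
    cases o with
    | none => exact Or.inl rfl
    | some s => exact Or.inr ⟨s, rfl⟩
  by_cases hA : ∃ o : Option T, ¬ {i | t i = o}.Countable
  · obtain ⟨o, ho⟩ := hA
    refine ⟨{i | t i = o}, tre_val o, hmem o, ho, fun x => ?_⟩
    have : {i | i ∈ {i | t i = o} ∧ e i x ≠ tre_val o x} = ∅ := by
      ext i
      simp only [Set.mem_empty_iff_false, iff_false]
      rintro ⟨h1, h2⟩
      apply h2
      rw [ht i]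
      exact congrFun (congrArg tre_val (show t i = o from h1)) x
    rw [this]
    exact Set.countable_empty
  · push Not at hA
    let Y : Set T := {s | ∃ i, t i = some s}
    have hY : ¬ Y.Countable := by
      intro hYc
      apply hunc
      have h1 : (Set.univ : Set I) ⊆ {i | t i = none} ∪ ⋃ s ∈ Y, {i | t i = some s} := by
        intro i _
        cases hti : t i with
        | none => exact Or.inl hti
        | some s =>
          right
          rw [Set.mem_iUnion₂]
          exact ⟨s, ⟨i, hti⟩, hti⟩
      exact Set.countable_univ_iff.1 (((hA none).union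
        (hYc.biUnion fun s _ => hA (some s))).mono h1)
    obtain ⟨c0, hc0⟩ := hW Y hY
    let S : Set T := {u | Suc c0 u ∧ ∃ y ∈ Y, u ≤ y}
    have hS : ∀ u : S, ∃ (s : T) (i : I), t i = some s ∧ u.1 ≤ s := by
      rintro ⟨u, hu, s, ⟨i, hi⟩, hus⟩
      exact ⟨s, i, hi, hus⟩
    choose s i hi hus using hS
    have hinj : Function.Injective i := by
      intro u u' huu
      have h1 : some (s u) = some (s u') := by rw [← hi u, ← hi u', huu]
      have h2 : s u = s u' := Option.some.inj h1
      apply Subtype.ext
      exact tre_unique h u.2.1 u'.2.1 (hus u) (h2 ▸ hus u')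
    refine ⟨Set.range i, tre_val c0, hmem c0, ?_, fun x => ?_⟩
    · intro hc
      apply hc0
      have : Countable (Set.range i) := hc.to_subtype
      have h1 : Countable S :=
        Function.Injective.countable (f := Set.rangeFactorization i)
          (fun a b hab => hinj (congrArg Subtype.val hab))
      exact Set.countable_coe_iff.1 h1
    · have hcases : ∀ x : XT T, x = OnePoint.infty ∨ ∃ a : T, x = inc a := by
        intro x
        induction x using OnePoint.rec with
        | infty => exact Or.inl rfl
        | coe a => exact Or.inr ⟨a, rfl⟩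
      have hinf : ∀ o : Option T, tre_val o (OnePoint.infty : XT T) = 0 := by
        intro o
        cases o with
        | none => rfl
        | some s => exact chi_infty s
      rcases hcases x with rfl | ⟨y, rfl⟩
      · have : {j | j ∈ Set.range i ∧ e j (OnePoint.infty : XT T) ≠
            tre_val c0 (OnePoint.infty : XT T)} = ∅ := by
          ext j
          simp only [Set.mem_empty_iff_false, iff_false]
          rintro ⟨-, h2⟩
          apply h2
          rw [ht j, hinf, hinf]
        rw [this]
        exact Set.countable_empty
      · have h1 : {j | j ∈ Set.range i ∧ e j (inc y : XT T) ≠ tre_val c0 (inc y : XT T)} ⊆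
            i '' {u : S | u.1 ≤ y} := by
          rintro j ⟨⟨u, rfl⟩, hne⟩
          refine ⟨u, ?_, rfl⟩
          rw [ht (i u), hi u] at hne
          exact tre_le h u.2.1 (hus u) hne
        refine Set.Countable.mono h1 (Set.Countable.image ?_ i)
        exact (hI y).preimage_of_injOn (f := (Subtype.val : S → T))
          (Subtype.val_injective.injOn)

end Pool.Agent.H19.AK
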